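import Pool.Agent.H10.SV.Lines3
import Pool.Agent.H10.SU.Combine

/-! From closed squares to open squares; the sampling inequality for a packing. -/

set_option autoImplicit false

namespace Pool.H10.SV

open MeasureTheory Set

/-- The closed square with corner `(x, y)`, side `s` and direction `θ`. -/
def CSq (x y θ s : ℝ) : Set (ℝ × ℝ) :=
  {p : ℝ × ℝ | ∃ a ∈ Set.Icc (0:ℝ) s, ∃ b ∈ Set.Icc (0:ℝ) s,
    p = (x + a * Real.cos θ - b * Real.sin θ, y + a * Real.sin θ + b * Real.cos θ)}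

lemma USq.norm (q : USq) : ∃ r : USq, r.set = q.set ∧ |r.s| ≤ r.c ∧ r.t = q.t ∧ r.r = q.r := by
  rcases le_total |q.s| |q.c| with h | h
  · rcases le_total 0 q.c with hc | hc
    · exact ⟨q, rfl, by rwa [abs_of_nonneg hc] at h, rfl, rfl⟩
    · refine ⟨q.rot.rot, by rw [USq.set_rot, USq.set_rot], ?_, by rw [USq.t_rot, USq.t_rot], rfl⟩
      simp only [USq.rot]
      rw [abs_neg]
      rwa [abs_of_nonpos hc] at h
  · rcases le_total 0 q.s with hs | hs
    · refine ⟨q.rot.rot.rot, by rw [USq.set_rot, USq.set_rot, USq.set_rot], ?_,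
        by rw [USq.t_rot, USq.t_rot, USq.t_rot], rfl⟩
      simp only [USq.rot]
      rw [neg_neg, abs_neg]
      rwa [abs_of_nonneg hs] at h
    · refine ⟨q.rot, by rw [USq.set_rot], ?_, by rw [USq.t_rot], rfl⟩
      simp only [USq.rot]
      rwa [abs_of_nonpos hs] at h

/-- the open square of a closed square, scaled by `l` -/
noncomputable def toU (x y θ s l : ℝ) (hs : 0 < s) (hl : 0 < l) : USq :=
  ⟨l * (x + s / 2 * (Real.cos θ - Real.sin θ)), l * (y + s / 2 * (Real.sin θ + Real.cos θ)), Real.cos θ, Real.sin θ,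
    l * s / 2, Real.cos_sq_add_sin_sq θ, by positivity⟩

lemma toU_sub (x y θ s l : ℝ) (hs : 0 < s) (hl : 0 < l) (p : ℝ × ℝ) (hp : p ∈ (toU x y θ s l hs hl).set) :
    (p.1 / l, p.2 / l) ∈ interior (CSq x y θ s) := by
  have hcs := Real.cos_sq_add_sin_sq θ
  set c := Real.cos θ with hc
  set σ := Real.sin θ with hσ
  -- the open square
  set O : Set (ℝ × ℝ) := {z | (0 < c * (z.1 - x) + σ * (z.2 - y) ∧ c * (z.1 - x) + σ * (z.2 - y) < s) ∧
    (0 < -σ * (z.1 - x) + c * (z.2 - y) ∧ -σ * (z.1 - x) + c * (z.2 - y) < s)} with hO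
  have hOo : IsOpen O := by
    have f1 : Continuous (fun z : ℝ × ℝ => c * (z.1 - x) + σ * (z.2 - y)) := by fun_prop
    have f2 : Continuous (fun z : ℝ × ℝ => -σ * (z.1 - x) + c * (z.2 - y)) := by fun_prop
    exact ((isOpen_lt continuous_const f1).inter (isOpen_lt f1 continuous_const)).inter
      ((isOpen_lt continuous_const f2).inter (isOpen_lt f2 continuous_const))
  have hOsub : O ⊆ CSq x y θ s := by
    rintro z ⟨⟨g1, g2⟩, g3, g4⟩
    refine ⟨c * (z.1 - x) + σ * (z.2 - y), ⟨g1.le, g2.le⟩, -σ * (z.1 - x) + c * (z.2 - y), ⟨g3.le, g4.le⟩, ?_⟩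
    rw [← hc, ← hσ]
    ext
    · simp only
      have : x + (c * (z.1 - x) + σ * (z.2 - y)) * c - (-σ * (z.1 - x) + c * (z.2 - y)) * σ
          = x + (c ^ 2 + σ ^ 2) * (z.1 - x) := by ring
      rw [this, hcs]; ring
    · simp only
      have : y + (c * (z.1 - x) + σ * (z.2 - y)) * σ + (-σ * (z.1 - x) + c * (z.2 - y)) * c
          = y + (c ^ 2 + σ ^ 2) * (z.2 - y) := by ring
      rw [this, hcs]; ring
  refine interior_maximal hOsub hOo ?_
  rw [USq.mem] at hp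
  simp only [toU, ← hc, ← hσ] at hp
  obtain ⟨⟨h1, h2⟩, h3, h4⟩ := hp
  have e1 : l * (c * (p.1 / l - x) + σ * (p.2 / l - y)) =
      (c * (p.1 - l * (x + s / 2 * (c - σ))) + σ * (p.2 - l * (y + s / 2 * (σ + c)))) + l * s / 2 * (c ^ 2 + σ ^ 2) := by
    field_simp; ring
  have e2 : l * (-σ * (p.1 / l - x) + c * (p.2 / l - y)) =
      (-σ * (p.1 - l * (x + s / 2 * (c - σ))) + c * (p.2 - l * (y + s / 2 * (σ + c)))) + l * s / 2 * (c ^ 2 + σ ^ 2) := by
    field_simp; ring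
  rw [hcs, mul_one] at e1 e2
  have key1 : ∀ z : ℝ, 0 < l * z → 0 < z := fun z hz => pos_of_mul_pos_right hz hl.le
  have key2 : ∀ z : ℝ, l * z < l * s → z < s := fun z hz => lt_of_mul_lt_mul_left hz hl.le
  refine ⟨⟨key1 _ ?_, key2 _ ?_⟩, key1 _ ?_, key2 _ ?_⟩
  · simp only; rw [e1]; linarith
  · simp only; rw [e1]; linarith
  · simp only; rw [e2]; linarith
  · simp only; rw [e2]; linarith

/-- a packing of open squares, with normalised directions -/
structure Pk0 {ι : Type} (X : ℝ) (q : ι → USq) : Prop where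
  box : ∀ i, (q i).set ⊆ K X
  disj : ∀ i j, i ≠ j → Disjoint (q i).set (q j).set
  nrm : ∀ i, |(q i).s| ≤ (q i).c

lemma toPk {ι : Type} (x y θ s : ι → ℝ) (hs : ∀ i, 0 < s i)
    (hbox : ∀ i, CSq (x i) (y i) (θ i) (s i) ⊆ Icc 0 1 ×ˢ Icc 0 1)
    (hd : ∀ i j, i ≠ j → Disjoint (interior (CSq (x i) (y i) (θ i) (s i)))
      (interior (CSq (x j) (y j) (θ j) (s j)))) (l : ℝ) (hl : 0 < l) :
    ∃ q : ι → USq, Pk0 l q ∧ (∀ i, (q i).r = l * s i / 2) ∧
      (∀ i, (q i).t = |Real.cos (θ i) * Real.sin (θ i)|) := by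
  choose r hr using fun i => (toU (x i) (y i) (θ i) (s i) l (hs i) hl).norm
  refine ⟨r, ⟨?_, ?_, ?_⟩, ?_, ?_⟩
  · intro i p hp
    rw [(hr i).1] at hp
    have h1 := hbox i (interior_subset (toU_sub _ _ _ _ _ (hs i) hl p hp))
    obtain ⟨⟨g1, g2⟩, g3, g4⟩ := h1
    simp only at g1 g2 g3 g4
    rw [K, mem_prod, mem_Icc, mem_Icc]
    rw [div_le_one hl] at g2 g4
    refine ⟨⟨?_, g2⟩, ?_, g4⟩
    · have := mul_nonneg g1 hl.le
      rwa [div_mul_cancel₀ _ hl.ne'] at this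
    · have := mul_nonneg g3 hl.le
      rwa [div_mul_cancel₀ _ hl.ne'] at this
  · intro i j hij
    rw [(hr i).1, (hr j).1, Set.disjoint_left]
    intro p h1 h2
    exact Set.disjoint_left.1 (hd i j hij) (toU_sub _ _ _ _ _ (hs i) hl p h1) (toU_sub _ _ _ _ _ (hs j) hl p h2)
  · intro i; exact (hr i).2.1
  · intro i; rw [(hr i).2.2.2]; rfl
  · intro i; rw [(hr i).2.2.1]; rfl

variable {ι : Type} [Fintype ι]

lemma area0 {X : ℝ} {q : ι → USq} (h : Pk0 X q) (hX : 0 ≤ X) : ∑ i, (2 * (q i).r) ^ 2 ≤ X ^ 2 := by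
  have h1 : volume (⋃ i, (q i).set) = ENNReal.ofReal (∑ i, (2 * (q i).r) ^ 2) := by
    rw [measure_iUnion (fun i j hij => h.disj i j hij) (fun i => (q i).meas)]
    rw [tsum_fintype, ENNReal.ofReal_sum_of_nonneg (fun i _ => by positivity)]
    simp [USq.vol]
  have h2 : (⋃ i, (q i).set) ⊆ K X := iUnion_subset h.box
  have h3 := measure_mono (μ := volume) h2
  rw [h1, vol_K X hX] at h3
  exact (ENNReal.ofReal_le_ofReal_iff (by positivity)).1 h3

/-- the defect is nonnegative and controls the deviations of the sides -/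
lemma defect {X : ℝ} {q : ι → USq} (h : Pk0 X q) (hX : 0 ≤ X) (D : ℝ)
    (hD : D = X ^ 2 + Fintype.card ι - 4 * ∑ i, (q i).r) : ∑ i, (1 - 2 * (q i).r) ^ 2 ≤ D := by
  have h1 := area0 h hX
  have card1 : ∑ _i : ι, (1 : ℝ) = Fintype.card ι := by rw [Finset.sum_const, nsmul_eq_mul, mul_one]; rfl
  have : ∀ i, (1 - 2 * (q i).r) ^ 2 = 1 - 4 * (q i).r + (2 * (q i).r) ^ 2 := by intro i; ring
  rw [Finset.sum_congr rfl fun i _ => this i, Finset.sum_add_distrib, Finset.sum_sub_distrib, card1,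
    ← Finset.mul_sum, hD]
  linarith

lemma defect_nonneg {X : ℝ} {q : ι → USq} (h : Pk0 X q) (hX : 0 ≤ X) (D : ℝ)
    (hD : D = X ^ 2 + Fintype.card ι - 4 * ∑ i, (q i).r) : 0 ≤ D :=
  (Finset.sum_nonneg fun i _ => sq_nonneg _).trans (defect h hX D hD)

/-- a packing of small defect consists of near-unit squares -/
lemma near_of {X : ℝ} {q : ι → USq} (h : Pk0 X q) (hX : 0 ≤ X) (D : ℝ)
    (hD : D = X ^ 2 + Fintype.card ι - 4 * ∑ i, (q i).r) (hD1 : D ≤ 1 / 10 ^ 8) : Pk X q where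
  box := h.box
  disj := h.disj
  nrm := h.nrm
  near := by
    intro i
    have h1 := defect h hX D hD
    have h2 : (1 - 2 * (q i).r) ^ 2 ≤ D :=
      (Finset.single_le_sum (f := fun i => (1 - 2 * (q i).r) ^ 2) (fun i _ => sq_nonneg _) (Finset.mem_univ i)).trans h1
    have h3 : |1 - 2 * (q i).r| ≤ 1 / 10 ^ 4 := by
      apply abs_le_of_sq_le_sq _ (by norm_num)
      refine h2.trans (hD1.trans (le_of_eq ?_))
      norm_num
    rw [USq.nu]
    rw [abs_le] at h3 ⊢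
    constructor <;> linarith

/-- nearly parallel squares almost satisfy the conjectured bound -/
theorem almost (Kb : ℕ) (hKb : 1 ≤ Kb) {q : ι → USq} (h : Pk0 (Kb : ℝ) q) (j : ℤ)
    (hj : (Fintype.card ι : ℤ) = (Kb : ℤ) ^ 2 + 2 * j + 1) (D : ℝ)
    (hD : D = (Kb : ℝ) ^ 2 + Fintype.card ι - 4 * ∑ i, (q i).r) (x : ℝ) (hx : 0 < x)
    (hs : 4 * ∑ i, (q i).t ^ 2 ≤ x ^ 8) : 1 - 23 * x ≤ D := by
  have hKr : (0 : ℝ) ≤ Kb := Nat.cast_nonneg _
  have hV := defect h hKr D hD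
  have hD0 := defect_nonneg h hKr D hD
  by_contra hcon
  push Not at hcon
  have hx1 : x < 1 / 23 := by linarith
  have hx8 : x ^ 8 ≤ (1 / 23) ^ 8 := pow_le_pow_left₀ hx.le hx1.le 8
  have ht : ∀ i, (q i).t ≤ 1 / 20 := by
    intro i
    have h1 : (q i).t ^ 2 ≤ ∑ i, (q i).t ^ 2 :=
      Finset.single_le_sum (f := fun i => (q i).t ^ 2) (fun i _ => sq_nonneg _) (Finset.mem_univ i)
    have h2 : (q i).t ^ 2 ≤ (1 / 20) ^ 2 := by
      have : ((1 : ℝ) / 23) ^ 8 ≤ 4 * (1 / 20) ^ 2 := by norm_num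
      linarith
    have h0 := (q i).t_nonneg
    nlinarith
  have hc : ∀ i, 0 < (q i).c := by
    intro i
    have h1 := h.nrm i
    have h2 := (q i).cs
    have h3 := abs_nonneg (q i).s
    rcases lt_or_eq_of_le (h3.trans h1) with h4 | h4
    · exact h4
    · exfalso
      rw [← h4] at h1 h2
      have h5 : (q i).s = 0 := abs_eq_zero.1 (le_antisymm h1 h3)
      rw [h5] at h2; norm_num at h2
  have hc2 : ∀ i, 1 / 2 ≤ (q i).c ^ 2 := by
    intro i
    have h1 : |(q i).s| ^ 2 ≤ (q i).c ^ 2 := pow_le_pow_left₀ (abs_nonneg _) (h.nrm i) 2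
    rw [sq_abs] at h1
    have h2 := (q i).cs
    linarith
  -- tangents
  set τ : ι → ℝ := fun i => (q i).s / (q i).c with hτ
  have hτ2 : ∀ i, τ i ^ 2 ≤ 4 * (q i).t ^ 2 := by
    intro i
    have h1 := hc2 i
    have h2 := hc i
    have h3 : (q i).t ^ 2 = (q i).c ^ 2 * (q i).s ^ 2 := by rw [USq.t, sq_abs]; ring
    rw [h3, hτ]
    simp only
    rw [div_pow, div_le_iff₀ (by positivity)]
    have h4 : 1 ≤ 4 * ((q i).c ^ 2) ^ 2 := by nlinarith
    nlinarith [sq_nonneg (q i).s, mul_le_mul_of_nonneg_right h4 (sq_nonneg (q i).s)]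
  have hτ10 : ∀ i, |τ i| ≤ 1 / 10 := by
    intro i
    apply abs_le_of_sq_le_sq _ (by norm_num)
    have h1 := ht i
    have h2 := (q i).t_nonneg
    nlinarith [hτ2 i]
  have hsτ : ∑ i, τ i ^ 2 ≤ x ^ 8 := by
    refine le_trans (Finset.sum_le_sum fun i _ => hτ2 i) ?_
    rw [← Finset.mul_sum]; exact hs
  have hsτ0 : 0 ≤ ∑ i, τ i ^ 2 := Finset.sum_nonneg fun i _ => sq_nonneg _
  have hopen : ∀ i, ∀ p ∈ (q i).set, (0 < p.1 ∧ p.1 < Kb) ∧ (0 < p.2 ∧ p.2 < Kb) := by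
    intro i p hp
    have h1 := interior_maximal (h.box i) (q i).isOpen hp
    rw [K, interior_prod_eq, interior_Icc] at h1
    exact h1
  have hS : ∀ i, ∀ X Y : ℝ, |X - (q i).a + τ i * (Y - (q i).b)| < (q i).r →
      |Y - (q i).b - τ i * (X - (q i).a)| < (q i).r → (X, Y) ∈ (q i).set := by
    intro i X Y g1 g2
    have c0 := hc i
    have hcs := (q i).cs
    have c1 : (q i).c ≤ 1 := by nlinarith [sq_nonneg (q i).s]
    have hct : (q i).c * τ i = (q i).s := by rw [hτ]; field_simp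
    rw [(q i).mem, ← abs_lt, ← abs_lt]
    simp only
    have e1 : (q i).c * (X - (q i).a) + (q i).s * (Y - (q i).b)
        = (q i).c * (X - (q i).a + τ i * (Y - (q i).b)) := by rw [← hct]; ring
    have e2 : -(q i).s * (X - (q i).a) + (q i).c * (Y - (q i).b)
        = (q i).c * (Y - (q i).b - τ i * (X - (q i).a)) := by rw [← hct]; ring
    rw [e1, e2, abs_mul, abs_mul, abs_of_pos c0]
    constructor
    · refine lt_of_le_of_lt ?_ g1
      nlinarith [abs_nonneg (X - (q i).a + τ i * (Y - (q i).b))]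
    · refine lt_of_le_of_lt ?_ g2
      nlinarith [abs_nonneg (Y - (q i).b - τ i * (X - (q i).a))]
  have main := Pool.H10.SU.combine (fun i => (q i).a) (fun i => (q i).b) (fun i => (q i).r) τ
    (fun i => (q i).hr) hτ10 Kb (fun i => (q i).set) hS hopen h.disj j hj (8 * x ^ 2) (by positivity)
    (by nlinarith) D hD
  -- the error
  set s := ∑ i, τ i ^ 2 with hsd
  set e := ∑ i, (4 * |τ i| * |1 - 2 * (q i).r| + 180 * τ i ^ 2) with he
  have he1 : e ≤ 4 * x ^ 4 + 180 * x ^ 8 := by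
    have h1 : e = 4 * ∑ i, |τ i| * |1 - 2 * (q i).r| + 180 * s := by
      rw [he, hsd, Finset.mul_sum, Finset.mul_sum, ← Finset.sum_add_distrib]
      apply Finset.sum_congr rfl
      intro i _; ring
    have h2 : (∑ i, |τ i| * |1 - 2 * (q i).r|) ^ 2 ≤ (x ^ 4) ^ 2 := by
      have h3 := Finset.sum_mul_sq_le_sq_mul_sq (Finset.univ : Finset ι) (fun i => |τ i|) (fun i => |1 - 2 * (q i).r|)
      simp only [sq_abs] at h3
      refine h3.trans ?_
      have h4 : ∑ i, (1 - 2 * (q i).r) ^ 2 ≤ 1 := hV.trans (by linarith)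
      have h5 : 0 ≤ ∑ i, (1 - 2 * (q i).r) ^ 2 := Finset.sum_nonneg fun i _ => sq_nonneg _
      calc (∑ i, τ i ^ 2) * ∑ i, (1 - 2 * (q i).r) ^ 2 ≤ x ^ 8 * 1 := mul_le_mul hsτ h4 h5 (by positivity)
        _ = (x ^ 4) ^ 2 := by ring
    have h3 := (abs_le_of_sq_le_sq' h2 (by positivity)).2
    rw [h1]
    linarith
  have he0 : 0 ≤ e := Finset.sum_nonneg fun i _ => by positivity
  set X0 := (1 - D) / 2 with hX0
  have hX1 : 23/2 * x ≤ X0 := by linarith
  have hx8' : x ^ 8 ≤ x ^ 2 / 10 ^ 7 := by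
    have e1 : x ^ 8 = x ^ 2 * x ^ 6 := by ring
    have e2 : x ^ 6 ≤ (1/23) ^ 6 := pow_le_pow_left₀ hx.le hx1.le 6
    have e3 : ((1 : ℝ)/23) ^ 6 ≤ 1 / 10 ^ 7 := by norm_num
    rw [e1]
    have := mul_le_mul_of_nonneg_left (e2.trans e3) (sq_nonneg x)
    linarith
  have hx4' : x ^ 4 ≤ x ^ 2 / 500 := by
    have e1 : x ^ 4 = x ^ 2 * x ^ 2 := by ring
    have e2 : x ^ 2 ≤ (1/23) ^ 2 := pow_le_pow_left₀ hx.le hx1.le 2
    have e3 : ((1 : ℝ)/23) ^ 2 ≤ 1 / 500 := by norm_num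
    rw [e1]
    have := mul_le_mul_of_nonneg_left (e2.trans e3) (sq_nonneg x)
    linarith
  have hx28 : x ^ 2 / 10 ^ 7 ≤ x / 10 ^ 7 := by
    apply div_le_div_of_nonneg_right _ (by norm_num)
    nlinarith
  have hl : 23/2 * x * (1149/100 * x) ≤ max X0 0 * max (X0 - 180 * s) 0 := by
    apply mul_le_mul
    · exact le_trans hX1 (le_max_left _ _)
    · refine le_trans ?_ (le_max_left _ _)
      linarith
    · positivity
    · exact le_max_right _ _
  have hk2 : 128 / (8 * x ^ 2) * e ≤ 64 * x ^ 2 + 2880 * x ^ 6 := by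
    have e1 : 128 / (8 * x ^ 2) * (4 * x ^ 4 + 180 * x ^ 8) = 64 * x ^ 2 + 2880 * x ^ 6 := by field_simp; ring
    rw [← e1]
    exact mul_le_mul_of_nonneg_left he1 (by positivity)
  have hx6' : x ^ 6 ≤ x ^ 2 / 250000 := by
    have e1 : x ^ 6 = x ^ 2 * x ^ 4 := by ring
    have e2 : x ^ 4 ≤ (1/23) ^ 4 := pow_le_pow_left₀ hx.le hx1.le 4
    have e3 : ((1 : ℝ)/23) ^ 4 ≤ 1 / 250000 := by norm_num
    rw [e1]
    have := mul_le_mul_of_nonneg_left (e2.trans e3) (sq_nonneg x)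
    linarith
  have hk1 : 8 * (8 * x ^ 2) * (D + 180 * s) ≤ 64 * x ^ 2 * (101/100) := by
    have : D + 180 * s ≤ 101/100 := by
      have : x ^ 8 ≤ 1 / 10 ^ 5 := by
        refine hx8.trans ?_; norm_num
      linarith
    have := mul_le_mul_of_nonneg_left this (show 0 ≤ 8 * (8 * x ^ 2) by positivity)
    linarith
  have hx2 : 0 < x ^ 2 := by positivity
  have : 23/2 * x * (1149/100 * x) ≤ 129 * x ^ 2 := by
    refine hl.trans (main.trans ?_)
    nlinarith
  nlinarith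

end Pool.H10.SV
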