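import Pool.Agent.H10.SV.Conv

/-! The trivial bound can be improved by a fixed proportion of its distance to the conjectured value. -/

set_option autoImplicit false

namespace Pool.H10.SV

open MeasureTheory Set

theorem gain : ∃ c : ℝ, 0 < c ∧ ∀ (K' L r : ℕ), 1 ≤ K' → 1 ≤ L → (K' = L + 1 ∨ L = K' + 1) → 1 ≤ r →
    (∃ j : ℤ, (r : ℤ) = (K' : ℤ) ^ 2 + 2 * j + 1) →
    |Real.sqrt r - K'| + |Real.sqrt r - L| = 1 →
    ∀ x y θ s : Fin r → ℝ, (∀ i, 0 < s i) →
      (∀ i, CSq (x i) (y i) (θ i) (s i) ⊆ Icc 0 1 ×ˢ Icc 0 1) →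
      (∀ i j, i ≠ j → Disjoint (interior (CSq (x i) (y i) (θ i) (s i)))
        (interior (CSq (x j) (y j) (θ j) (s j)))) →
      c * (1 - (Real.sqrt r - K') ^ 2) ≤ 2 * K' * (Real.sqrt r - ∑ i, s i) := by
  set e0 : ℝ := 1 / (2 * 10 ^ 25) with he0
  set c : ℝ := (e0 / 46) ^ 4 / (3 * 10 ^ 11) with hc
  have hc0 : 0 < c := by rw [hc, he0]; positivity
  have hc1 : c ≤ 1 / 10 ^ 9 := by rw [hc, he0]; norm_num
  have hc2 : c ≤ 1 / (8 * 10 ^ 25) := by rw [hc, he0]; norm_num
  have hc3 : c ≤ e0 / 2 := by rw [hc, he0]; norm_num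
  have hc4 : 9 * 10 ^ 22 * c ^ 2 ≤ (e0 / 46) ^ 8 := by
    have : 9 * 10 ^ 22 * c ^ 2 = (e0 / 46) ^ 8 := by rw [hc]; ring
    exact this.le
  have he00 : 0 < e0 := by rw [he0]; positivity
  clear_value c
  have he0B : e0 * (2 * 10 ^ 25) = 1 := by rw [he0]; norm_num
  clear_value e0
  clear hc he0
  refine ⟨c, hc0, ?_⟩
  intro K' L r hK hL hKL hr hj hue x y θ s hs hbox hd
  obtain ⟨j, hj⟩ := hj
  have hKr : (1 : ℝ) ≤ K' := by exact_mod_cast hK
  have hLr : (1 : ℝ) ≤ L := by exact_mod_cast hL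
  have hrr : (1 : ℝ) ≤ r := by exact_mod_cast hr
  set R := Real.sqrt r with hR
  have hR2 : R ^ 2 = r := Real.sq_sqrt (by linarith)
  have hR1 : 1 ≤ R := by rw [hR]; exact Real.one_le_sqrt.2 hrr
  set S := ∑ i, s i with hS
  set ρ := R - S with hρ
  set u := |R - K'| with hu
  set e := |R - L| with he
  have hu0 : 0 ≤ u := abs_nonneg _
  have he' : 0 ≤ e := abs_nonneg _
  have hu2 : (R - K') ^ 2 = u ^ 2 := (sq_abs _).symm
  have he2 : (R - L) ^ 2 = e ^ 2 := (sq_abs _).symm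
  have heq : e = 1 - u := by linarith
  have hcard : (Fintype.card (Fin r) : ℝ) = r := by rw [Fintype.card_fin]
  have hLK : (L : ℝ) ≤ 2 * K' := by
    rcases hKL with h | h
    · have : L ≤ 2 * K' := by omega
      exact_mod_cast this
    · have : L ≤ 2 * K' := by omega
      exact_mod_cast this
  have hRK : R ≤ 2 * K' := by
    have h1 : R - K' ≤ u := le_abs_self _
    linarith
  -- the packing at scale `l`
  have pack : ∀ l : ℝ, 0 < l → ∃ q : Fin r → USq, Pk0 l q ∧ (∀ i, (q i).r = l * s i / 2) ∧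
      (∀ i, (q i).t = |Real.cos (θ i) * Real.sin (θ i)|) := fun l hl => toPk x y θ s hs hbox hd l hl
  have dsum : ∀ l : ℝ, ∀ q : Fin r → USq, (∀ i, (q i).r = l * s i / 2) →
      l ^ 2 + (Fintype.card (Fin r) : ℝ) - 4 * ∑ i, (q i).r = (R - l) ^ 2 + 2 * l * ρ := by
    intro l q hq
    have : ∑ i, (q i).r = l * S / 2 := by
      rw [Finset.sum_congr rfl fun i _ => hq i, hS, Finset.mul_sum, Finset.sum_div]
    rw [this, hcard, ← hR2, hρ]
    ring
  -- the trivial bound
  obtain ⟨qR, hqR, hrR, htR⟩ := pack R (by linarith)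
  have hDR := defect_nonneg hqR (by linarith) _ (dsum R qR hrR).symm
  have hρ0 : 0 ≤ ρ := by
    have h1 : (R - R) ^ 2 + 2 * R * ρ = 2 * R * ρ := by ring
    rw [h1] at hDR
    by_contra hcon
    push Not at hcon
    nlinarith
  have hu1 : u ≤ 1 := by linarith
  have hX0 : 0 ≤ 1 - u ^ 2 := by nlinarith
  have hX1 : 1 - u ^ 2 ≤ 1 := by nlinarith
  have hX2 : 1 - u ^ 2 ≤ 2 * e := by rw [heq]; nlinarith
  have hX3 : e ≤ 1 - u ^ 2 := by rw [heq]; nlinarith
  rw [hu2]
  by_cases hreg : e ≤ e0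
  · -- regime A
    obtain ⟨qL, hqL, hrL, htL⟩ := pack L (by linarith)
    have hDL : e / 10 ^ 25 ≤ (R - L) ^ 2 + 2 * L * ρ := by
      by_cases hsm : (R - L) ^ 2 + 2 * L * ρ ≤ 1 / 10 ^ 8
      · have hPk := near_of hqL (by linarith) _ (dsum L qL hrL).symm hsm
        have h1 := lines hPk hL _ (dsum L qL hrL).symm (hsm.trans (by norm_num))
        rw [hcard, ← hR2] at h1
        have h2 : |(L : ℝ) ^ 2 - R ^ 2| = e * (L + R) := by
          have : (L : ℝ) ^ 2 - R ^ 2 = -((R - L) * (L + R)) := by ring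
          rw [this, abs_neg, abs_mul, abs_of_pos (show 0 < L + R by linarith)]
        rw [h2] at h1
        have h3 : e * L ≤ e * (L + R) := mul_le_mul_of_nonneg_left (by linarith) he'
        have h4 : e * L ≤ (10 ^ 25 * ((R - L) ^ 2 + 2 * L * ρ)) * L := by linarith
        have h5 := le_of_mul_le_mul_right h4 (by linarith)
        rw [div_le_iff₀ (by positivity)]
        linarith
      · push Not at hsm
        have : e ≤ 1 := by linarith
        have h6 : e / 10 ^ 25 ≤ 1 / 10 ^ 25 := div_le_div_of_nonneg_right this (by positivity)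
        have h7 : (1 : ℝ) / 10 ^ 25 ≤ 1 / 10 ^ 8 := by norm_num
        linarith
    rw [he2] at hDL
    have h1 : e ^ 2 ≤ e * e0 := by nlinarith
    have h2 : e * e0 = e / (2 * 10 ^ 25) := by
      rw [eq_div_iff (by positivity), mul_assoc, he0B, mul_one]
    have h3 : e / (2 * 10 ^ 25) ≤ 2 * L * ρ := by
      have : e / 10 ^ 25 = e / (2 * 10 ^ 25) + e / (2 * 10 ^ 25) := by field_simp; ring
      linarith only [this, h2, h1, hDL]
    have h4 : 2 * L * ρ ≤ 2 * (2 * K' * ρ) := by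
      have := mul_le_mul_of_nonneg_right hLK hρ0
      linarith
    have h5 : c * (1 - u ^ 2) ≤ 1 / (8 * 10 ^ 25) * (2 * e) := mul_le_mul hc2 hX2 hX0 (by positivity)
    have h6 : 1 / (8 * 10 ^ 25) * (2 * e) = e / (2 * 10 ^ 25) / 2 := by field_simp; ring
    linarith only [h3, h4, h5, h6]
  · -- regime B
    push Not at hreg
    by_contra hcon
    push Not at hcon
    have hcon2 : 2 * K' * ρ < c := by
      have : c * (1 - u ^ 2) ≤ c * 1 := mul_le_mul_of_nonneg_left hX1 hc0.le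
      linarith
    have hDR2 : (R - R) ^ 2 + 2 * R * ρ ≤ 2 * c := by
      have h1 := mul_le_mul_of_nonneg_right hRK hρ0
      have h2 : (R - R) ^ 2 + 2 * R * ρ = 2 * (R * ρ) := by ring
      rw [h2]
      linarith
    have hPk := near_of hqR (by linarith) _ (dsum R qR hrR).symm (by
      have : 2 * c ≤ 1 / 10 ^ 8 := by
        have : (2 : ℝ) * (1 / 10 ^ 9) ≤ 1 / 10 ^ 8 := by norm_num
        linarith only [this, hc1]
      linarith only [this, hDR2])
    have htilt := sum_tilt hPk (by linarith)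
    have hW0 := area_nonneg hPk (by linarith)
    have hWD : R ^ 2 - ∑ i, (2 * (qR i).r) ^ 2 ≤ 2 * c := by
      have h1 : 0 ≤ ∑ i, (1 - 2 * (qR i).r) ^ 2 := Finset.sum_nonneg fun i _ => sq_nonneg _
      have h2 : ∀ i, (1 - 2 * (qR i).r) ^ 2 = 1 - 4 * (qR i).r + (2 * (qR i).r) ^ 2 := by intro i; ring
      have card1 : ∑ _i : Fin r, (1 : ℝ) = Fintype.card (Fin r) := by
        rw [Finset.sum_const, nsmul_eq_mul, mul_one]; rfl
      rw [Finset.sum_congr rfl fun i _ => h2 i, Finset.sum_add_distrib, Finset.sum_sub_distrib, card1,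
        ← Finset.mul_sum] at h1
      have h3 := dsum R qR hrR
      linarith
    have htilt2 : ∑ i, (qR i).t ^ 2 ≤ 9600000000 ^ 2 * 58 * (2 * c) ^ 2 := by
      refine htilt.trans ?_
      apply mul_le_mul_of_nonneg_left _ (by positivity)
      exact pow_le_pow_left₀ hW0 hWD 2
    obtain ⟨qK, hqK, hrK, htK⟩ := pack K' (by linarith)
    have ht8 : 4 * ∑ i, (qK i).t ^ 2 ≤ (e0 / 46) ^ 8 := by
      have h1 : ∑ i, (qK i).t ^ 2 = ∑ i, (qR i).t ^ 2 := by
        apply Finset.sum_congr rfl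
        intro i _
        rw [htK, htR]
      rw [h1]
      refine le_trans ?_ hc4
      nlinarith [sq_nonneg c]
    have hal := almost K' hK hqK j (by rw [Fintype.card_fin]; exact hj) _ (dsum K' qK hrK).symm (e0 / 46)
      (by positivity) ht8
    rw [hu2] at hal
    linarith only [hal, hcon2, hc3, hX3, hreg]

end Pool.H10.SV
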