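import Pool.Agent.H10.SV.Tilt

/-! Counting squares on vertical lines: near-unit squares in a box of integer side `L` whose number is not `L²`
waste at least a constant times `|L² - n| / L`. -/

set_option autoImplicit false

namespace Pool.H10.SV

open MeasureTheory Set

/-- the abscissas of the full vertical chords -/
def USq.ci (q : USq) : Set ℝ := Ioo (q.a - q.r * (q.c - |q.s|)) (q.a + q.r * (q.c - |q.s|))

/-- the abscissas of all vertical chords -/
def USq.co (q : USq) : Set ℝ := Ioo (q.a - q.r * (q.c + |q.s|)) (q.a + q.r * (q.c + |q.s|))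

/-- the vertical chord -/
def USq.sl (q : USq) (x : ℝ) : Set ℝ := Prod.mk x ⁻¹' q.set

lemma USq.sl_meas (q : USq) (x : ℝ) : MeasurableSet (q.sl x) := measurable_prodMk_left q.meas

lemma USq.sl_sub (q : USq) (hc : 0 < q.c) (x : ℝ) :
    q.sl x ⊆ Ioo (q.b + q.s / q.c * (x - q.a) - q.r / q.c) (q.b + q.s / q.c * (x - q.a) + q.r / q.c) := by
  intro y hy
  rw [USq.sl, mem_preimage, q.mem] at hy
  obtain ⟨-, h3, h4⟩ := hy
  simp only at h3 h4
  have e : -q.s * (x - q.a) + q.c * (y - q.b) = q.c * (y - q.b - q.s / q.c * (x - q.a)) := by field_simp; ring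
  rw [e] at h3 h4
  rw [mem_Ioo]
  constructor
  · have : -(q.r / q.c) < y - q.b - q.s / q.c * (x - q.a) := by
      rw [← neg_div, div_lt_iff₀ hc]; linarith
    linarith
  · have : y - q.b - q.s / q.c * (x - q.a) < q.r / q.c := by
      rw [lt_div_iff₀ hc]; linarith
    linarith

lemma USq.sl_eq (q : USq) (hc : 0 < q.c) (x : ℝ) (hx : x ∈ q.ci) :
    q.sl x = Ioo (q.b + q.s / q.c * (x - q.a) - q.r / q.c) (q.b + q.s / q.c * (x - q.a) + q.r / q.c) := by
  apply Subset.antisymm (q.sl_sub hc x)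
  intro y hy
  have hr := q.hr
  have hcs := q.cs
  rw [mem_Ioo] at hy
  set η := y - q.b - q.s / q.c * (x - q.a) with hη
  have h1 : |η| < q.r / q.c := by rw [abs_lt]; constructor <;> linarith [hy.1, hy.2]
  have hx' : |x - q.a| < q.r * (q.c - |q.s|) := by
    rw [USq.ci, mem_Ioo] at hx
    rw [abs_lt]; constructor <;> linarith [hx.1, hx.2]
  have hη2 : |q.c * η| < q.r := by
    rw [abs_mul, abs_of_pos hc]
    rwa [lt_div_iff₀ hc, mul_comm] at h1
  rw [USq.sl, mem_preimage, q.mem, ← abs_lt, ← abs_lt]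
  simp only
  have e1 : -q.s * (x - q.a) + q.c * (y - q.b) = q.c * η := by
    rw [hη]; field_simp; ring
  have e2 : q.c * (x - q.a) + q.s * (y - q.b) = (x - q.a) / q.c + q.s * η := by
    have : (x - q.a) / q.c = (q.c ^ 2 + q.s ^ 2) * (x - q.a) / q.c := by rw [hcs, one_mul]
    rw [this, hη]; field_simp; ring
  refine ⟨?_, by rw [e1]; exact hη2⟩
  rw [e2]
  refine lt_of_le_of_lt (abs_add_le _ _) ?_
  rw [abs_div, abs_of_pos hc, abs_mul]
  have h2 : |x - q.a| / q.c < q.r * (q.c - |q.s|) / q.c := div_lt_div_of_pos_right hx' hc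
  have h3 : |q.s| * |η| ≤ |q.s| * (q.r / q.c) := mul_le_mul_of_nonneg_left h1.le (abs_nonneg _)
  have e3 : q.r * (q.c - |q.s|) / q.c + |q.s| * (q.r / q.c) = q.r := by field_simp; ring
  linarith

lemma USq.sl_empty (q : USq) (hc : 0 < q.c) (x : ℝ) (hx : x ∉ q.co) : q.sl x = ∅ := by
  ext y
  simp only [mem_empty_iff_false, iff_false]
  intro hy
  apply hx
  have hcs := q.cs
  rw [USq.sl, mem_preimage, q.mem] at hy
  simp only at hy
  obtain ⟨h1, h2⟩ := hy
  rw [← abs_lt] at h1 h2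
  set u := q.c * (x - q.a) + q.s * (y - q.b) with hu
  set v := -q.s * (x - q.a) + q.c * (y - q.b) with hv
  have e1 : x - q.a = q.c * u - q.s * v := by
    have : q.c * u - q.s * v = (q.c ^ 2 + q.s ^ 2) * (x - q.a) := by rw [hu, hv]; ring
    rw [this, hcs, one_mul]
  have h3 : |x - q.a| < q.r * (q.c + |q.s|) := by
    rw [e1]
    refine lt_of_le_of_lt (abs_sub _ _) ?_
    rw [abs_mul, abs_mul, abs_of_pos hc]
    have g1 := mul_lt_mul_of_pos_left h1 hc
    have g2 := mul_le_mul_of_nonneg_left h2.le (abs_nonneg q.s)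
    linarith
  rw [abs_lt] at h3
  rw [USq.co, mem_Ioo]
  constructor <;> linarith [h3.1, h3.2]

/-- length of the chord -/
noncomputable def USq.ch (q : USq) (x : ℝ) : ℝ := (volume (q.sl x)).toReal

lemma USq.ch_ci (q : USq) (hc : 0 < q.c) (x : ℝ) (hx : x ∈ q.ci) : q.ch x = 2 * q.r / q.c := by
  have hr := q.hr
  rw [USq.ch, q.sl_eq hc x hx, Real.volume_Ioo, ENNReal.toReal_ofReal]
  · ring
  · have : 0 < q.r / q.c := by positivity
    linarith

lemma USq.sl_fin (q : USq) (hc : 0 < q.c) (x : ℝ) : volume (q.sl x) ≤ ENNReal.ofReal (2 * q.r / q.c) := by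
  refine (measure_mono (q.sl_sub hc x)).trans ?_
  rw [Real.volume_Ioo]
  apply ENNReal.ofReal_le_ofReal
  apply le_of_eq; ring

lemma USq.ch_le (q : USq) (hc : 0 < q.c) (x : ℝ) : q.ch x ≤ 2 * q.r / q.c := by
  have hr := q.hr
  exact ENNReal.toReal_le_of_le_ofReal (by positivity) (q.sl_fin hc x)

lemma USq.ch_out (q : USq) (hc : 0 < q.c) (x : ℝ) (hx : x ∉ q.co) : q.ch x = 0 := by
  rw [USq.ch, q.sl_empty hc x hx]; simp

lemma USq.ch_nonneg (q : USq) (x : ℝ) : 0 ≤ q.ch x := ENNReal.toReal_nonneg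

lemma USq.vol_fin (q : USq) : volume q.set ≠ ⊤ := by rw [q.vol]; exact ENNReal.ofReal_ne_top

lemma USq.ch_int (q : USq) : Integrable q.ch volume := by
  have := Measure.integrable_measure_prodMk_left (μ := (volume : Measure ℝ)) (ν := (volume : Measure ℝ)) q.meas
    (by rw [← Measure.volume_eq_prod]; exact q.vol_fin)
  exact this

lemma USq.int_ch (q : USq) : ∫ x, q.ch x = (2 * q.r) ^ 2 := by
  have h1 : ((volume : Measure ℝ).prod (volume : Measure ℝ)) q.set < ⊤ := by
    rw [← Measure.volume_eq_prod]; exact lt_top_iff_ne_top.2 q.vol_fin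
  have h2 : ∫ x, q.ch x = (∫⁻ x, volume (Prod.mk x ⁻¹' q.set)).toReal := by
    unfold USq.ch USq.sl
    exact integral_toReal (measurable_measure_prodMk_left q.meas).aemeasurable (Measure.ae_measure_lt_top q.meas h1.ne)
  rw [h2, ← Measure.prod_apply q.meas, ← Measure.volume_eq_prod, q.vol, ENNReal.toReal_ofReal (by positivity)]

/-- the pointwise inequality behind `lines` -/
lemma ptw (L N : ℕ) (w E P Q E' : ℝ) (hN : (N : ℝ) ≤ 2 * L) (hw : 0 ≤ w) (hE' : 0 ≤ E')
    (hE'2 : E' ≤ 3/2 * E) (hQ : 0 ≤ Q) (hPQ : P ^ 2 ≤ N * Q) (hM : (L : ℝ) - N = w + P + E') :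
    |(L : ℝ) - N| ≤ 32 * L * Q + 4 * w + 4 * E := by
  have hL0 : (0 : ℝ) ≤ L := Nat.cast_nonneg L
  by_cases h1 : |(L : ℝ) - N| ≤ 4 * E
  · have : 0 ≤ 32 * (L : ℝ) * Q := by positivity
    linarith
  push Not at h1
  by_cases h2 : |(L : ℝ) - N| / 4 ≤ w
  · have : 0 ≤ 32 * (L : ℝ) * Q := by positivity
    linarith
  push Not at h2
  set m := |(L : ℝ) - N| with hm
  have h3 : m ≤ w + |P| + E' := by
    rw [hm, hM]
    refine (abs_add_le _ _).trans ?_
    rw [abs_of_nonneg hE']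
    have := abs_add_le w P
    rw [abs_of_nonneg hw] at this
    linarith
  have h4 : m / 4 ≤ |P| := by linarith
  have hm0 : 0 ≤ m := abs_nonneg _
  have h5 : (m / 4) ^ 2 ≤ P ^ 2 := by
    rw [← sq_abs P]; exact pow_le_pow_left₀ (by positivity) h4 2
  have h6 : (N : ℝ) * Q ≤ 2 * L * Q := mul_le_mul_of_nonneg_right hN hQ
  have h7 : m ≤ m ^ 2 := by
    have e : m = ((|(L : ℤ) - N| : ℤ) : ℝ) := by rw [hm]; push_cast; rfl
    rw [e]
    exact_mod_cast Int.le_self_sq _
  have h8 : m ^ 2 ≤ 32 * L * Q := by nlinarith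
  linarith

variable {ι : Type} [Fintype ι] {L : ℕ} {q : ι → USq}

lemma Pk.cpos (h : Pk (L : ℝ) q) (i : ι) : 7 / 10 ≤ (q i).c := by
  have h1 := h.nrm i
  have h2 := (q i).cs
  have h3 := abs_nonneg (q i).s
  rw [← sq_abs (q i).s] at h2
  by_contra hcon
  push Not at hcon
  nlinarith

lemma Pk.chord_sum (h : Pk (L : ℝ) q) (x : ℝ) : ∑ i, (q i).ch x ≤ L := by
  have hc : ∀ i, 0 < (q i).c := fun i => lt_of_lt_of_le (by norm_num) (h.cpos i)
  have h1 : volume (⋃ i, (q i).sl x) = ∑ i, volume ((q i).sl x) := by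
    rw [measure_iUnion (fun i j hij => ?_) (fun i => (q i).sl_meas x), tsum_fintype]
    rw [Function.onFun, Set.disjoint_left]
    intro y h1 h2
    exact Set.disjoint_left.1 (h.disj i j hij) h1 h2
  have h2 : (⋃ i, (q i).sl x) ⊆ Icc 0 (L : ℝ) := by
    apply iUnion_subset
    intro i y hy
    exact (h.box i hy).2
  have h3 : ∑ i, volume ((q i).sl x) ≤ ENNReal.ofReal L := by
    rw [← h1]
    refine (measure_mono h2).trans ?_
    rw [Real.volume_Icc, sub_zero]
  have h4 := ENNReal.toReal_mono (by simp) h3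
  rw [ENNReal.toReal_sum (fun i _ => ne_top_of_le_ne_top ENNReal.ofReal_ne_top ((q i).sl_fin (hc i) x)),
    ENNReal.toReal_ofReal (Nat.cast_nonneg L)] at h4
  exact h4

lemma Pk.ci_sub (h : Pk (L : ℝ) q) (i : ι) : (q i).ci ⊆ Icc 0 (L : ℝ) := by
  intro x hx
  have hc : 0 < (q i).c := lt_of_lt_of_le (by norm_num) (h.cpos i)
  have hr := (q i).hr
  have h1 := (q i).sl_eq hc x hx
  have h2 : (q i).b + (q i).s / (q i).c * (x - (q i).a) ∈ (q i).sl x := by
    rw [h1, mem_Ioo]
    have : 0 < (q i).r / (q i).c := by positivity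
    constructor <;> linarith
  exact (h.box i h2).1

lemma Pk.ch_zero (h : Pk (L : ℝ) q) (i : ι) (x : ℝ) (hx : x ∉ Icc 0 (L : ℝ)) : (q i).ch x = 0 := by
  rw [USq.ch]
  have : (q i).sl x = ∅ := by
    ext y
    simp only [mem_empty_iff_false, iff_false]
    intro hy
    exact hx (h.box i hy).1
  rw [this]; simp

open Classical in
lemma Pk.pt (h : Pk (L : ℝ) q) (hL : 1 ≤ L) (x : ℝ) :
    |(L : ℝ) - ∑ i, (q i).ci.indicator 1 x| ≤
      32 * L * ∑ i, (1 - 2 * (q i).r / (q i).c) ^ 2 * (q i).ci.indicator 1 x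
      + 4 * (L - ∑ i, (q i).ch x) + 4 * ∑ i, ((q i).co.indicator 1 x - (q i).ci.indicator 1 x) := by
  have hc := fun i => h.cpos i
  have hn := h.near
  set A : Finset ι := Finset.univ.filter (fun i => x ∈ (q i).ci) with hA
  set N : ℕ := A.card with hNd
  have eN : ∑ i, (q i).ci.indicator (1 : ℝ → ℝ) x = N := by
    rw [hNd, hA, Finset.card_filter]
    push_cast
    apply Finset.sum_congr rfl
    intro i _
    by_cases hi : x ∈ (q i).ci
    · simp [hi]
    · simp [hi]
  set P := ∑ i ∈ A, (2 * (q i).r / (q i).c - 1) with hP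
  set Q := ∑ i ∈ A, (2 * (q i).r / (q i).c - 1) ^ 2 with hQ
  have eQ : ∑ i, (1 - 2 * (q i).r / (q i).c) ^ 2 * (q i).ci.indicator (1 : ℝ → ℝ) x = Q := by
    rw [hQ, hA, Finset.sum_filter]
    apply Finset.sum_congr rfl
    intro i _
    by_cases hi : x ∈ (q i).ci
    · simp only [hi, indicator_of_mem, Pi.one_apply, mul_one, if_true]; ring
    · simp [hi]
  set E' := ∑ i ∈ Aᶜ, (q i).ch x with hE'
  have eS : ∑ i, (q i).ch x = ∑ i ∈ A, (2 * (q i).r / (q i).c) + E' := by
    rw [hE', ← Finset.sum_add_sum_compl A]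
    congr 1
    apply Finset.sum_congr rfl
    intro i hi
    rw [hA, Finset.mem_filter] at hi
    exact (q i).ch_ci (by linarith [hc i]) x hi.2
  have eP : ∑ i ∈ A, (2 * (q i).r / (q i).c) = P + N := by
    rw [hP, Finset.sum_sub_distrib, Finset.sum_const, nsmul_eq_mul, mul_one]; ring
  have hE'0 : 0 ≤ E' := Finset.sum_nonneg fun i _ => (q i).ch_nonneg x
  have hs := h.chord_sum x
  have hsub : ∀ i, (q i).ci ⊆ (q i).co := by
    intro i z hz
    have hr := (q i).hr
    have h0 := abs_nonneg (q i).s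
    rw [USq.ci, mem_Ioo] at hz
    rw [USq.co, mem_Ioo]
    constructor <;> nlinarith [hz.1, hz.2]
  have hE2 : E' ≤ 3/2 * ∑ i, ((q i).co.indicator (1 : ℝ → ℝ) x - (q i).ci.indicator 1 x) := by
    have g0 : ∀ i, 0 ≤ (q i).co.indicator (1 : ℝ → ℝ) x - (q i).ci.indicator 1 x := by
      intro i
      by_cases h1 : x ∈ (q i).ci
      · simp [h1, hsub i h1]
      · simp [h1, indicator_nonneg]
    have g1 : ∀ i ∈ Aᶜ, (q i).ch x ≤ 3/2 * ((q i).co.indicator (1 : ℝ → ℝ) x - (q i).ci.indicator 1 x) := by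
      intro i hi
      have hi' : x ∉ (q i).ci := by
        intro h1
        rw [Finset.mem_compl, hA, Finset.mem_filter] at hi
        exact hi ⟨Finset.mem_univ _, h1⟩
      by_cases h2 : x ∈ (q i).co
      · rw [indicator_of_mem h2, indicator_of_notMem hi', Pi.one_apply]
        refine ((q i).ch_le (by linarith [hc i]) x).trans ?_
        rw [div_le_iff₀ (by linarith [hc i])]
        have := hn i
        rw [USq.nu, abs_le] at this
        linarith [hc i]
      · rw [(q i).ch_out (by linarith [hc i]) x h2, indicator_of_notMem h2, indicator_of_notMem hi']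
        norm_num
    rw [hE', Finset.mul_sum]
    refine (Finset.sum_le_sum g1).trans ?_
    exact Finset.sum_le_sum_of_subset_of_nonneg (Finset.subset_univ _)
      (fun i _ _ => mul_nonneg (by norm_num) (g0 i))
  have hPQ : P ^ 2 ≤ N * Q := by
    rw [hP, hQ, hNd]
    exact sq_sum_le_card_mul_sum_sq
  have hlow : ∑ i ∈ A, (99/100 : ℝ) ≤ ∑ i ∈ A, (2 * (q i).r / (q i).c) := by
    apply Finset.sum_le_sum
    intro i _
    rw [le_div_iff₀ (by linarith [hc i])]
    have := hn i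
    rw [USq.nu, abs_le] at this
    have h2 := (q i).cs
    have h3 : (q i).c ≤ 1 := by nlinarith [sq_nonneg (q i).s, hc i]
    linarith
  rw [Finset.sum_const, nsmul_eq_mul] at hlow
  have hNL : (N : ℝ) ≤ 2 * L := by
    have : (0 : ℝ) ≤ L := Nat.cast_nonneg L
    have h5 : (N : ℝ) * (99/100) ≤ L := by
      rw [hNd]
      linarith
    linarith
  rw [eN, eQ]
  exact ptw L N (L - ∑ i, (q i).ch x) _ P Q E' hNL (by linarith) hE'0 hE2
    (Finset.sum_nonneg fun i _ => sq_nonneg _) hPQ (by rw [eS, eP]; ring)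

end Pool.H10.SV
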