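import Pool.Agent.H10.SV.Lines

/-! Integration of the pointwise inequality. -/

set_option autoImplicit false

namespace Pool.H10.SV

open MeasureTheory Set

variable {ι : Type} [Fintype ι] {L : ℕ} {q : ι → USq}

lemma ind_int (μ : Measure ℝ) [IsFiniteMeasure μ] (A : Set ℝ) (hA : MeasurableSet A) :
    Integrable (A.indicator (1 : ℝ → ℝ)) μ := (integrable_const (1 : ℝ)).indicator hA

lemma ind_val (L : ℕ) (A : Set ℝ) (hA : MeasurableSet A) :
    ∫ x in Icc 0 (L : ℝ), A.indicator (1 : ℝ → ℝ) x = (volume (A ∩ Icc 0 (L : ℝ))).toReal := by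
  rw [integral_indicator_one hA, Measure.real, Measure.restrict_apply hA]

lemma ci_vol (q : USq) (hq : |q.s| ≤ q.c) : (volume q.ci).toReal = 2 * q.r * (q.c - |q.s|) := by
  have hr := q.hr
  rw [USq.ci, Real.volume_Ioo, ENNReal.toReal_ofReal]
  · ring
  · have : 0 ≤ q.r * (q.c - |q.s|) := mul_nonneg hr.le (by linarith)
    linarith

lemma co_vol (q : USq) (hq : |q.s| ≤ q.c) : (volume q.co).toReal = 2 * q.r * (q.c + |q.s|) := by
  have hr := q.hr
  rw [USq.co, Real.volume_Ioo, ENNReal.toReal_ofReal]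
  · ring
  · have : 0 ≤ q.r * (q.c + |q.s|) := mul_nonneg hr.le (by linarith [abs_nonneg q.s])
    linarith

theorem lines0 (h : Pk (L : ℝ) q) (hL : 1 ≤ L) :
    |(L : ℝ) ^ 2 - ∑ i, 2 * (q i).r * ((q i).c - |(q i).s|)| ≤
      32 * L * ∑ i, (1 - 2 * (q i).r / (q i).c) ^ 2 * (2 * (q i).r * ((q i).c - |(q i).s|))
      + 4 * ((L : ℝ) ^ 2 - ∑ i, (2 * (q i).r) ^ 2) + 4 * ∑ i, 4 * (q i).r * |(q i).s| := by
  set μ := (volume : Measure ℝ).restrict (Icc 0 (L : ℝ)) with hμ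
  have : IsFiniteMeasure μ := by
    refine ⟨?_⟩
    rw [hμ, Measure.restrict_apply MeasurableSet.univ, univ_inter, Real.volume_Icc]
    exact ENNReal.ofReal_lt_top
  have mi : ∀ i, MeasurableSet (q i).ci := fun i => measurableSet_Ioo
  have mo : ∀ i, MeasurableSet (q i).co := fun i => measurableSet_Ioo
  have ii : ∀ i, Integrable ((q i).ci.indicator (1 : ℝ → ℝ)) μ := fun i => ind_int μ _ (mi i)
  have io : ∀ i, Integrable ((q i).co.indicator (1 : ℝ → ℝ)) μ := fun i => ind_int μ _ (mo i)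
  have ic : ∀ i, Integrable (q i).ch μ := fun i => (q i).ch_int.restrict
  have vi : ∀ i, ∫ x, (q i).ci.indicator (1 : ℝ → ℝ) x ∂μ = 2 * (q i).r * ((q i).c - |(q i).s|) := by
    intro i
    rw [hμ, ind_val L _ (mi i), inter_eq_left.2 (h.ci_sub i), ci_vol _ (h.nrm i)]
  have vo : ∀ i, ∫ x, (q i).co.indicator (1 : ℝ → ℝ) x ∂μ ≤ 2 * (q i).r * ((q i).c + |(q i).s|) := by
    intro i
    rw [hμ, ind_val L _ (mo i), ← co_vol _ (h.nrm i)]
    apply ENNReal.toReal_mono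
    · rw [USq.co, Real.volume_Ioo]; exact ENNReal.ofReal_ne_top
    · exact measure_mono inter_subset_left
  have vc : ∀ i, ∫ x, (q i).ch x ∂μ = (2 * (q i).r) ^ 2 := by
    intro i
    rw [hμ, setIntegral_eq_integral_of_forall_compl_eq_zero (fun x hx => h.ch_zero i x hx), (q i).int_ch]
  have vL : ∫ _x, (L : ℝ) ∂μ = (L : ℝ) ^ 2 := by
    rw [integral_const, hμ, Measure.real, Measure.restrict_apply MeasurableSet.univ, univ_inter, Real.volume_Icc,
      sub_zero, ENNReal.toReal_ofReal (Nat.cast_nonneg L), smul_eq_mul]; ring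
  have iL : Integrable (fun _ : ℝ => (L : ℝ)) μ := integrable_const _
  have sI : Integrable (fun x => ∑ i, (q i).ci.indicator (1 : ℝ → ℝ) x) μ := integrable_finsetSum _ fun i _ => ii i
  have sC : Integrable (fun x => ∑ i, (q i).ch x) μ := integrable_finsetSum _ fun i _ => ic i
  have f1 : Integrable (fun x => (L : ℝ) - ∑ i, (q i).ci.indicator (1 : ℝ → ℝ) x) μ := iL.sub sI
  have f2 : Integrable (fun x => ∑ i, (1 - 2 * (q i).r / (q i).c) ^ 2 * (q i).ci.indicator (1 : ℝ → ℝ) x) μ :=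
    integrable_finsetSum _ fun i _ => (ii i).const_mul _
  have f3 : Integrable (fun x => (L : ℝ) - ∑ i, (q i).ch x) μ := iL.sub sC
  have f4 : Integrable (fun x => ∑ i, ((q i).co.indicator (1 : ℝ → ℝ) x - (q i).ci.indicator 1 x)) μ :=
    integrable_finsetSum _ fun i _ => (io i).sub (ii i)
  have main := integral_mono (μ := μ) f1.abs (((f2.const_mul (32 * (L : ℝ))).add (f3.const_mul 4)).add (f4.const_mul 4))
    (fun x => h.pt hL x)
  have e1 : ∫ x, ((L : ℝ) - ∑ i, (q i).ci.indicator (1 : ℝ → ℝ) x) ∂μ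
      = (L : ℝ) ^ 2 - ∑ i, 2 * (q i).r * ((q i).c - |(q i).s|) := by
    rw [integral_sub iL sI, vL, integral_finsetSum _ fun i _ => ii i]
    rw [Finset.sum_congr rfl fun i _ => vi i]
  have e2 : ∫ x, (∑ i, (1 - 2 * (q i).r / (q i).c) ^ 2 * (q i).ci.indicator (1 : ℝ → ℝ) x) ∂μ
      = ∑ i, (1 - 2 * (q i).r / (q i).c) ^ 2 * (2 * (q i).r * ((q i).c - |(q i).s|)) := by
    rw [integral_finsetSum _ fun i _ => (ii i).const_mul _]
    apply Finset.sum_congr rfl
    intro i _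
    rw [integral_const_mul, vi i]
  have e3 : ∫ x, ((L : ℝ) - ∑ i, (q i).ch x) ∂μ = (L : ℝ) ^ 2 - ∑ i, (2 * (q i).r) ^ 2 := by
    rw [integral_sub iL sC, vL, integral_finsetSum _ fun i _ => ic i]
    rw [Finset.sum_congr rfl fun i _ => vc i]
  have e4 : ∫ x, (∑ i, ((q i).co.indicator (1 : ℝ → ℝ) x - (q i).ci.indicator 1 x)) ∂μ
      ≤ ∑ i, 4 * (q i).r * |(q i).s| := by
    have fi : ∀ i ∈ (Finset.univ : Finset ι), Integrable (fun x => (q i).co.indicator (1 : ℝ → ℝ) x - (q i).ci.indicator 1 x) μ :=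
      fun i _ => (io i).sub (ii i)
    rw [integral_finsetSum _ fi]
    apply Finset.sum_le_sum
    intro i _
    rw [integral_sub (io i) (ii i), vi i]
    have := vo i
    linarith
  have e5 : ∫ x, ((((32 * (L : ℝ)) * ∑ i, (1 - 2 * (q i).r / (q i).c) ^ 2 * (q i).ci.indicator (1 : ℝ → ℝ) x)
      + 4 * ((L : ℝ) - ∑ i, (q i).ch x))
      + 4 * ∑ i, ((q i).co.indicator (1 : ℝ → ℝ) x - (q i).ci.indicator 1 x)) ∂μ
      ≤ 32 * L * ∑ i, (1 - 2 * (q i).r / (q i).c) ^ 2 * (2 * (q i).r * ((q i).c - |(q i).s|))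
      + 4 * ((L : ℝ) ^ 2 - ∑ i, (2 * (q i).r) ^ 2) + 4 * ∑ i, 4 * (q i).r * |(q i).s| := by
    have g12 : Integrable (fun x => (32 * (L : ℝ)) * ∑ i, (1 - 2 * (q i).r / (q i).c) ^ 2 * (q i).ci.indicator (1 : ℝ → ℝ) x
      + 4 * ((L : ℝ) - ∑ i, (q i).ch x)) μ := (f2.const_mul (32 * (L : ℝ))).add (f3.const_mul 4)
    rw [integral_add g12 (f4.const_mul 4),
      integral_add (f2.const_mul (32 * (L : ℝ))) (f3.const_mul 4), integral_const_mul, integral_const_mul,
      integral_const_mul, e2, e3]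
    linarith
  have e6 := abs_integral_le_integral_abs (μ := μ) (f := fun x => (L : ℝ) - ∑ i, (q i).ci.indicator (1 : ℝ → ℝ) x)
  rw [e1] at e6
  exact e6.trans (main.trans e5)

end Pool.H10.SV
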