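import Pool.Agent.H10.SV.Lines2

/-! Near-unit squares in a box of integer side `L`: `|L² - n| ≤ C L D` with `D = L² + n - 2 ∑ sides`. -/

set_option autoImplicit false

namespace Pool.H10.SV

open MeasureTheory Set

variable {ι : Type} [Fintype ι] {L : ℕ} {q : ι → USq}

lemma s_sq_le (q : USq) (hn : |q.s| ≤ q.c) : q.s ^ 2 ≤ 2 * q.t ^ 2 := by
  have hcs := q.cs
  have hs0 : 0 ≤ |q.s| := abs_nonneg _
  have hc0 : 0 ≤ q.c := hs0.trans hn
  have h1 : |q.s| ^ 2 ≤ q.c ^ 2 := pow_le_pow_left₀ hs0 hn 2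
  rw [sq_abs] at h1
  have ht : q.t ^ 2 = q.c ^ 2 * q.s ^ 2 := by rw [USq.t, sq_abs]; ring
  rw [ht]
  nlinarith [sq_nonneg q.s]

/-- the area of a packing is at most the area of the box -/
lemma area_nonneg {X : ℝ} (h : Pk X q) (hX : 0 ≤ X) : 0 ≤ X ^ 2 - ∑ i, (2 * (q i).r) ^ 2 := by
  rw [← vol_U h hX]; exact ENNReal.toReal_nonneg

theorem lines (h : Pk (L : ℝ) q) (hL : 1 ≤ L) (D : ℝ)
    (hD : D = (L : ℝ) ^ 2 + Fintype.card ι - 4 * ∑ i, (q i).r) (hD1 : D ≤ 1) :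
    |(L : ℝ) ^ 2 - Fintype.card ι| ≤ 10 ^ 25 * L * D := by
  have hLr : (1 : ℝ) ≤ L := by exact_mod_cast hL
  set n : ℝ := (Fintype.card ι : ℝ) with hn
  have hn0 : 0 ≤ n := Nat.cast_nonneg _
  have hne := h.near
  have hc := fun i => h.cpos i
  have h0 := lines0 h hL
  set W := (L : ℝ) ^ 2 - ∑ i, (2 * (q i).r) ^ 2 with hW
  have hW0 : 0 ≤ W := area_nonneg h (by linarith)
  have card1 : ∑ _i : ι, (1 : ℝ) = n := by rw [Finset.sum_const, nsmul_eq_mul, mul_one, hn]; rfl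
  have hV : ∑ i, (1 - 2 * (q i).r) ^ 2 = D - W := by
    have : ∀ i, (1 - 2 * (q i).r) ^ 2 = 1 - 4 * (q i).r + (2 * (q i).r) ^ 2 := by intro i; ring
    rw [Finset.sum_congr rfl fun i _ => this i, Finset.sum_add_distrib, Finset.sum_sub_distrib, card1,
      ← Finset.mul_sum, hD, hW]
    ring
  have hV0 : 0 ≤ D - W := by rw [← hV]; exact Finset.sum_nonneg fun i _ => sq_nonneg _
  have hD0 : 0 ≤ D := by linarith
  -- the sum of the s²
  have hs2 : ∑ i, (q i).s ^ 2 ≤ 11 * 10 ^ 21 * W ^ 2 := by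
    have h1 : ∑ i, (q i).s ^ 2 ≤ ∑ i, 2 * (q i).t ^ 2 := Finset.sum_le_sum fun i _ => s_sq_le (q i) (h.nrm i)
    rw [← Finset.mul_sum] at h1
    have h2 := sum_tilt h (by linarith : (0 : ℝ) ≤ L)
    rw [← hW] at h2
    nlinarith [sq_nonneg W]
  have hs20 : 0 ≤ ∑ i, (q i).s ^ 2 := Finset.sum_nonneg fun i _ => sq_nonneg _
  -- the number of squares
  have hnL : n * (99/100) ≤ (L : ℝ) ^ 2 := by
    have h1 : ∑ _i : ι, (99/100 : ℝ) ≤ ∑ i, (2 * (q i).r) ^ 2 := by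
      apply Finset.sum_le_sum
      intro i _
      have := hne i
      rw [USq.nu, abs_le] at this
      nlinarith
    rw [Finset.sum_const, nsmul_eq_mul] at h1
    have h2 : ((Finset.univ : Finset ι).card : ℝ) = n := rfl
    rw [h2] at h1
    linarith
  -- the sum of the |s|
  have hs1 : ∑ i, |(q i).s| ≤ 12 * 10 ^ 10 * L * W := by
    have h1 : (∑ i, |(q i).s|) ^ 2 ≤ n * ∑ i, (q i).s ^ 2 := by
      have := sq_sum_le_card_mul_sum_sq (s := (Finset.univ : Finset ι)) (f := fun i => |(q i).s|)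
      simp only [sq_abs] at this
      exact this
    have h2 : n * ∑ i, (q i).s ^ 2 ≤ (12 * 10 ^ 10 * L * W) ^ 2 := by
      have h3 : n * ∑ i, (q i).s ^ 2 ≤ n * (11 * 10 ^ 21 * W ^ 2) := mul_le_mul_of_nonneg_left hs2 hn0
      have h4 : n ≤ 102/100 * (L : ℝ) ^ 2 := by linarith [sq_nonneg (L : ℝ)]
      have h5 : n * (11 * 10 ^ 21 * W ^ 2) ≤ 102/100 * (L : ℝ) ^ 2 * (11 * 10 ^ 21 * W ^ 2) :=
        mul_le_mul_of_nonneg_right h4 (by positivity)
      have h6 : 0 ≤ (L : ℝ) ^ 2 * W ^ 2 := by positivity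
      nlinarith
    exact abs_le_of_sq_le_sq' (h1.trans h2) (by positivity) |>.2
  have hs10 : 0 ≤ ∑ i, |(q i).s| := Finset.sum_nonneg fun i _ => abs_nonneg _
  have hcs : ∀ i, (q i).c ≤ 1 := by
    intro i
    have h2 := (q i).cs
    nlinarith [sq_nonneg (q i).s, hc i]
  have hr1 : ∀ i, 0 < (q i).r ∧ 2 * (q i).r ≤ 11/10 := by
    intro i
    have := hne i
    rw [USq.nu, abs_le] at this
    constructor
    · exact (q i).hr
    · linarith
  have habs1 : ∀ i, |(q i).s| ≤ 1 := fun i => (h.nrm i).trans (hcs i)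
  -- first term
  have t1 : ∑ i, (1 - 2 * (q i).r / (q i).c) ^ 2 * (2 * (q i).r * ((q i).c - |(q i).s|)) ≤
      ∑ i, (11/5 * (1 - 2 * (q i).r) ^ 2 + 3 * (q i).s ^ 2) := by
    apply Finset.sum_le_sum
    intro i _
    have c0 := hc i
    have c1 := hcs i
    have s0 := abs_nonneg (q i).s
    have hn' := h.nrm i
    obtain ⟨r0, r1⟩ := hr1 i
    have cs := (q i).cs
    have i1 : 1 / (q i).c ≤ 1 + (q i).s ^ 2 := by
      rw [div_le_iff₀ (by linarith)]
      have : (1 + (q i).s ^ 2) * (q i).c = (q i).c * (2 - (q i).c ^ 2) := by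
        have : (q i).s ^ 2 = 1 - (q i).c ^ 2 := by linarith
        rw [this]; ring
      nlinarith
    have i0 : 1 ≤ 1 / (q i).c := by rw [le_div_iff₀ (by linarith)]; linarith
    have e : 2 * (q i).r / (q i).c = 2 * (q i).r * (1 / (q i).c) := by ring
    rw [e]
    set z := 1 / (q i).c with hz
    have hs1' : (q i).s ^ 2 ≤ 1 := by rw [← sq_abs]; nlinarith [habs1 i]
    have g1 : (1 - 2 * (q i).r * z) ^ 2 ≤ 2 * (1 - 2 * (q i).r) ^ 2 + 5/2 * (q i).s ^ 2 := by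
      have e2 : 1 - 2 * (q i).r * z = (1 - 2 * (q i).r) - 2 * (q i).r * (z - 1) := by ring
      rw [e2]
      have g2 : 0 ≤ 2 * (q i).r * (z - 1) := mul_nonneg (by linarith) (by linarith)
      have g3 : 2 * (q i).r * (z - 1) ≤ 11/10 * (q i).s ^ 2 := by
        have := mul_le_mul r1 (show z - 1 ≤ (q i).s ^ 2 by linarith) (by linarith) (by norm_num)
        exact this
      have g4 : (2 * (q i).r * (z - 1)) ^ 2 ≤ (11/10 * (q i).s ^ 2) ^ 2 := pow_le_pow_left₀ g2 g3 2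
      have g5 : (11/10 * (q i).s ^ 2) ^ 2 ≤ 5/4 * (q i).s ^ 2 := by nlinarith [sq_nonneg (q i).s]
      nlinarith [sq_nonneg ((1 - 2 * (q i).r) + 2 * (q i).r * (z - 1))]
    have g6 : 2 * (q i).r * ((q i).c - |(q i).s|) ≤ 11/10 := by nlinarith
    have g7 : 0 ≤ 2 * (q i).r * ((q i).c - |(q i).s|) := mul_nonneg (by linarith) (by linarith)
    have g8 : 0 ≤ 2 * (1 - 2 * (q i).r) ^ 2 + 5/2 * (q i).s ^ 2 := by positivity
    calc (1 - 2 * (q i).r * z) ^ 2 * (2 * (q i).r * ((q i).c - |(q i).s|))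
        ≤ (2 * (1 - 2 * (q i).r) ^ 2 + 5/2 * (q i).s ^ 2) * (11/10) := mul_le_mul g1 g6 g7 g8
      _ ≤ _ := by nlinarith [sq_nonneg (q i).s]
  rw [Finset.sum_add_distrib, ← Finset.mul_sum, ← Finset.mul_sum, hV] at t1
  have t2 : ∑ i, 4 * (q i).r * |(q i).s| ≤ 9/4 * ∑ i, |(q i).s| := by
    rw [Finset.mul_sum]
    apply Finset.sum_le_sum
    intro i _
    apply mul_le_mul_of_nonneg_right _ (abs_nonneg _)
    linarith [(hr1 i).2]
  have t3 : ∑ i, 2 * (q i).r * (1 - (q i).c + |(q i).s|) ≤ 11/5 * ∑ i, |(q i).s| := by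
    rw [Finset.mul_sum]
    apply Finset.sum_le_sum
    intro i _
    have s0 := abs_nonneg (q i).s
    have g1 : 1 - (q i).c ≤ |(q i).s| := by
      have cs := (q i).cs
      rw [← sq_abs (q i).s] at cs
      nlinarith [hc i, hcs i, habs1 i]
    have g2 : 1 - (q i).c + |(q i).s| ≤ 2 * |(q i).s| := by linarith
    have g3 : 0 ≤ 1 - (q i).c + |(q i).s| := by linarith [hcs i]
    have := mul_le_mul (hr1 i).2 g2 g3 (by norm_num)
    linarith
  have t30 : 0 ≤ ∑ i, 2 * (q i).r * (1 - (q i).c + |(q i).s|) := by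
    apply Finset.sum_nonneg
    intro i _
    have := hcs i
    exact mul_nonneg (by linarith [(hr1 i).1]) (by linarith [abs_nonneg (q i).s])
  have e0 : (L : ℝ) ^ 2 - n = 2 * ((L : ℝ) ^ 2 - ∑ i, 2 * (q i).r * ((q i).c - |(q i).s|))
      - 2 * ∑ i, 2 * (q i).r * (1 - (q i).c + |(q i).s|) - D := by
    have e1 : ∑ i, 2 * (q i).r * ((q i).c - |(q i).s|) + ∑ i, 2 * (q i).r * (1 - (q i).c + |(q i).s|)
        = 2 * ∑ i, (q i).r := by
      rw [← Finset.sum_add_distrib, Finset.mul_sum]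
      apply Finset.sum_congr rfl
      intro i _; ring
    rw [hD]
    linear_combination 2 * e1
  have hWD : W ≤ D := by linarith
  have hW2 : W ^ 2 ≤ D := by nlinarith
  have hLW : (L : ℝ) * W ≤ L * D := mul_le_mul_of_nonneg_left hWD (by linarith)
  have hLD : D ≤ L * D := by nlinarith
  have hLW0 : 0 ≤ (L : ℝ) * W := by positivity
  have hLs : 32 * (L : ℝ) * ∑ i, (1 - 2 * (q i).r / (q i).c) ^ 2 * (2 * (q i).r * ((q i).c - |(q i).s|))
      ≤ 32 * L * (11/5 * D + 3 * (11 * 10 ^ 21 * D)) := by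
    apply mul_le_mul_of_nonneg_left _ (by positivity)
    have : 11 * 10 ^ 21 * W ^ 2 ≤ 11 * 10 ^ 21 * D := mul_le_mul_of_nonneg_left hW2 (by norm_num)
    linarith
  have h0' : |(L : ℝ) ^ 2 - ∑ i, 2 * (q i).r * ((q i).c - |(q i).s|)| ≤ 2 * 10 ^ 24 * L * D := by
    refine h0.trans ?_
    nlinarith
  rw [abs_le] at h0'
  rw [e0, abs_le]
  constructor
  · nlinarith
  · nlinarith

end Pool.H10.SV
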