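import Pool.Agent.H10.SV.Step

/-! The walk from the wall to a given square. -/

set_option autoImplicit false

namespace Pool.H10.SV

open MeasureTheory Set

variable {ι : Type} [Fintype ι] {X : ℝ} {q : ι → USq}

lemma center_bd (h : Pk X q) (i : ι) :
    499/1000 ≤ (q i).a ∧ (q i).a ≤ X - 499/1000 ∧ 499/1000 ≤ (q i).b ∧ (q i).b ≤ X - 499/1000 := by
  have hn := h.near i
  rw [USq.nu, abs_le] at hn
  refine ⟨?_, ?_, ?_, ?_⟩
  · apply le_of_forall_lt_imp_le_of_dense
    intro r hr
    have hm : ((q i).a - max r 0, (q i).b) ∈ (q i).set := by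
      apply (q i).disc
      simp only
      have h1 : max r 0 < 499/1000 := max_lt hr (by norm_num)
      have h2 : 0 ≤ max r 0 := le_max_right _ _
      nlinarith
    have := (h.box i hm).1.1
    simp only at this
    linarith [le_max_left r 0]
  · have : ∀ r < (499/1000 : ℝ), r ≤ X - (q i).a := by
      intro r hr
      have hm : ((q i).a + max r 0, (q i).b) ∈ (q i).set := by
        apply (q i).disc
        simp only
        have h1 : max r 0 < 499/1000 := max_lt hr (by norm_num)
        have h2 : 0 ≤ max r 0 := le_max_right _ _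
        nlinarith
      have := (h.box i hm).1.2
      simp only at this
      linarith [le_max_left r 0]
    have := le_of_forall_lt_imp_le_of_dense this
    linarith
  · apply le_of_forall_lt_imp_le_of_dense
    intro r hr
    have hm : ((q i).a, (q i).b - max r 0) ∈ (q i).set := by
      apply (q i).disc
      simp only
      have h1 : max r 0 < 499/1000 := max_lt hr (by norm_num)
      have h2 : 0 ≤ max r 0 := le_max_right _ _
      nlinarith
    have := (h.box i hm).2.1
    simp only at this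
    linarith [le_max_left r 0]
  · have : ∀ r < (499/1000 : ℝ), r ≤ X - (q i).b := by
      intro r hr
      have hm : ((q i).a, (q i).b + max r 0) ∈ (q i).set := by
        apply (q i).disc
        simp only
        have h1 : max r 0 < 499/1000 := max_lt hr (by norm_num)
        have h2 : 0 ≤ max r 0 := le_max_right _ _
        nlinarith
      have := (h.box i hm).2.2
      simp only at this
      linarith [le_max_left r 0]
    have := le_of_forall_lt_imp_le_of_dense this
    linarith

lemma stop (h : Pk X q) (i s : ι) (ht : (q i).t ≤ 1/1000) (ha : |(q i).a - (q s).a| ≤ 84/100)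
    (hb : |(q i).b - (q s).b| ≤ 84/100) : i = s := by
  by_contra hne
  rw [abs_le] at ha hb
  set dx := (q i).a - (q s).a with hdx
  set dy := (q i).b - (q s).b with hdy
  have hib := ibd (q i) (h.near i) ht
  have hn := h.near s
  rw [USq.nu, abs_le] at hn
  have m1 : ((q s).a + 41/100 * dx, (q s).b + 41/100 * dy) ∈ (q i).set := by
    apply (q i).inner
    · simp only; rw [abs_lt]; constructor <;> linarith
    · simp only; rw [abs_lt]; constructor <;> linarith
  have m2 : ((q s).a + 41/100 * dx, (q s).b + 41/100 * dy) ∈ (q s).set := by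
    apply (q s).disc
    simp only
    nlinarith
  exact Set.disjoint_left.1 (h.disj i s hne) m1 m2

/-- local waste of a square -/
noncomputable def lw (X : ℝ) (q : ι → USq) (δ : ℝ) (i : ι) : ℝ := wst X q (Bx (q i).a (q i).b 2) + δ

lemma goR (h : Pk X q) (s i : ι) (δ : ℝ) (hδ : 0 < δ) (ht : (q i).t + 600000 * lw X q δ i ≤ 1/1000)
    (hb : |(q i).b - (q s).b| ≤ 8/10) (ha : (q i).a < (q s).a - 84/100) :
    ∃ j, j ≠ i ∧ (q j).t ≤ (q i).t + 600000 * lw X q δ i ∧ 998/1000 ≤ (q j).a - (q i).a ∧
      (q j).a - (q i).a ≤ 1003/1000 ∧ |(q j).b - (q s).b| ≤ 84/100 := by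
  obtain ⟨s1, s2, s3, s4⟩ := center_bd h s
  obtain ⟨i1, i2, i3, i4⟩ := center_bd h i
  rw [abs_le] at hb
  have hw0 : 0 < lw X q δ i := by have := wst_nonneg X q (Bx (q i).a (q i).b 2); unfold lw; linarith
  have hw1 : wst X q (Bx (q i).a (q i).b 2) ≤ lw X q δ i := by unfold lw; linarith
  by_cases c1 : 48/100 < (q i).b - (q s).b
  · obtain ⟨j, g1, g2, g3, g4, g5, g6⟩ := stepR h i (-(49/100)) (lw X q δ i) (by norm_num) (by norm_num) hw0 hw1 ht
      (by linarith) (by linarith) (by linarith) (by linarith)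
    refine ⟨j, g1, g2, g3, g4, ?_⟩
    rw [abs_le]; constructor <;> linarith
  by_cases c2 : (q i).b - (q s).b < -(48/100)
  · obtain ⟨j, g1, g2, g3, g4, g5, g6⟩ := stepR h i (48/100) (lw X q δ i) (by norm_num) (by norm_num) hw0 hw1 ht
      (by linarith) (by linarith) (by linarith) (by linarith)
    refine ⟨j, g1, g2, g3, g4, ?_⟩
    rw [abs_le]; constructor <;> linarith
  push Not at c1 c2
  obtain ⟨j, g1, g2, g3, g4, g5, g6⟩ := stepR h i ((q s).b - (q i).b - 1/200) (lw X q δ i) (by linarith) (by linarith)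
    hw0 hw1 ht (by linarith) (by linarith) (by linarith) (by linarith)
  refine ⟨j, g1, g2, g3, g4, ?_⟩
  rw [abs_le]; constructor <;> linarith

lemma goV (h : Pk X q) (s i : ι) (δ : ℝ) (hδ : 0 < δ) (ht : (q i).t + 600000 * lw X q δ i ≤ 1/1000)
    (hb : 8/10 < |(q i).b - (q s).b|) (hb2 : |(q i).b - (q s).b| ≤ 84/100) (ha : (q i).a < (q s).a - 84/100) :
    ∃ j, j ≠ i ∧ (q j).t ≤ (q i).t + 600000 * lw X q δ i ∧ -(23/1000) ≤ (q j).a - (q i).a ∧
      (q j).a - (q i).a ≤ 993/1000 ∧ |(q j).b - (q s).b| ≤ 8/10 := by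
  obtain ⟨s1, s2, s3, s4⟩ := center_bd h s
  obtain ⟨i1, i2, i3, i4⟩ := center_bd h i
  rw [abs_le] at hb2
  have hw0 : 0 < lw X q δ i := by have := wst_nonneg X q (Bx (q i).a (q i).b 2); unfold lw; linarith
  have hw1 : wst X q (Bx (q i).a (q i).b 2) ≤ lw X q δ i := by unfold lw; linarith
  rcases lt_abs.1 hb with c1 | c1
  · obtain ⟨j, g1, g2, g3, g4, g5, g6⟩ := stepD h i (lw X q δ i) hw0 hw1 ht
      (by linarith) (by linarith) (by linarith) (by linarith)
    refine ⟨j, g1, g2, g5, g6, ?_⟩
    rw [abs_le]; constructor <;> linarith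
  · obtain ⟨j, g1, g2, g3, g4, g5, g6⟩ := stepU h i (lw X q δ i) hw0 hw1 ht
      (by linarith) (by linarith) (by linarith) (by linarith)
    refine ⟨j, g1, g2, g5, g6, ?_⟩
    rw [abs_le]; constructor <;> linarith

lemma walk_ind [DecidableEq ι] (h : Pk X q) (s : ι) (δ w0 : ℝ) (hδ : 0 < δ) (S : Finset ι)
    (hS : ∀ i, i ∈ S ↔ |(q i).b - (q s).b| ≤ 84/100)
    (hsm : 600000 * (w0 + ∑ i ∈ S, lw X q δ i) ≤ 1/1000) (N : ℕ) :
    ∀ (i : ι) (L : Finset ι), L ⊆ S → (∀ j ∈ L, (q j).a ≤ (q i).a - 9/10) →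
      (q i).t ≤ 600000 * (w0 + ∑ j ∈ L, lw X q δ j) → |(q i).b - (q s).b| ≤ 84/100 → (q i).a ≤ (q s).a + 2/10 →
      (q s).a - 84/100 - (q i).a ≤ 9/10 * N →
      ∃ L', L' ⊆ S ∧ (q s).t ≤ 600000 * (w0 + ∑ j ∈ L', lw X q δ j) := by
  have hpos : ∀ i, 0 < lw X q δ i := by
    intro i; have := wst_nonneg X q (Bx (q i).a (q i).b 2); unfold lw; linarith
  have hsub : ∀ L ⊆ S, 600000 * (w0 + ∑ j ∈ L, lw X q δ j) ≤ 1/1000 := by
    intro L hL
    have := Finset.sum_le_sum_of_subset_of_nonneg hL (fun i _ _ => (hpos i).le)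
    linarith
  induction N with
  | zero =>
    intro i L hL hLa ht hb ha hN
    have his : i = s := by
      apply stop h i s (ht.trans (hsub L hL)) _ hb
      rw [abs_le]; constructor <;> [(push_cast at hN; linarith); linarith]
    exact ⟨L, hL, by rw [← his]; exact ht⟩
  | succ N ih =>
    intro i L hL hLa ht hb ha hN
    by_cases hc : (q s).a - 84/100 ≤ (q i).a
    · have his : i = s := by
        apply stop h i s (ht.trans (hsub L hL)) _ hb
        rw [abs_le]; constructor <;> linarith
      exact ⟨L, hL, by rw [← his]; exact ht⟩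
    push Not at hc
    have hiS : i ∈ S := (hS i).2 hb
    have hiL : i ∉ L := fun hh => by have := hLa i hh; linarith
    have hL1 : insert i L ⊆ S := Finset.insert_subset hiS hL
    have hs1 : ∑ j ∈ insert i L, lw X q δ j = lw X q δ i + ∑ j ∈ L, lw X q δ j := Finset.sum_insert hiL
    have hti : (q i).t + 600000 * lw X q δ i ≤ 600000 * (w0 + ∑ j ∈ insert i L, lw X q δ j) := by
      rw [hs1]; linarith
    have hti2 := hti.trans (hsub _ hL1)
    by_cases hv : |(q i).b - (q s).b| ≤ 8/10
    · obtain ⟨j, j1, j2, j3, j4, j5⟩ := goR h s i δ hδ hti2 hv hc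
      refine ih j (insert i L) hL1 ?_ (j2.trans hti) j5 (by linarith) ?_
      · intro l hl
        rcases Finset.mem_insert.1 hl with rfl | hl
        · linarith
        · have := hLa l hl; linarith
      · push_cast at hN; linarith
    · push Not at hv
      obtain ⟨j, j1, j2, j3, j4, j5⟩ := goV h s i δ hδ hti2 hv hb hc
      have hjS : j ∈ S := (hS j).2 (by linarith)
      have hjL : j ∉ insert i L := by
        intro hh
        rcases Finset.mem_insert.1 hh with hh | hh
        · exact j1 hh
        · have := hLa j hh; linarith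
      by_cases hc2 : (q s).a - 84/100 ≤ (q j).a
      · have his : j = s := by
          apply stop h j s ((j2.trans hti).trans (hsub _ hL1)) _ (by linarith)
          rw [abs_le]; constructor <;> linarith
        exact ⟨insert i L, hL1, by rw [← his]; exact j2.trans hti⟩
      push Not at hc2
      have hL2 : insert j (insert i L) ⊆ S := Finset.insert_subset hjS hL1
      have hs2 : ∑ l ∈ insert j (insert i L), lw X q δ l = lw X q δ j + ∑ l ∈ insert i L, lw X q δ l :=
        Finset.sum_insert hjL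
      have htj : (q j).t + 600000 * lw X q δ j ≤ 600000 * (w0 + ∑ l ∈ insert j (insert i L), lw X q δ l) := by
        rw [hs2]
        have := j2.trans hti
        linarith
      obtain ⟨l, l1, l2, l3, l4, l5⟩ := goR h s j δ hδ (htj.trans (hsub _ hL2)) j5 hc2
      refine ih l (insert j (insert i L)) hL2 ?_ (l2.trans htj) l5 (by linarith) ?_
      · intro m hm
        rcases Finset.mem_insert.1 hm with rfl | hm
        · linarith
        rcases Finset.mem_insert.1 hm with rfl | hm
        · linarith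
        · have := hLa m hm; linarith
      · push_cast at hN; linarith

theorem walk (h : Pk X q) (s : ι) (δ : ℝ) (hδ : 0 < δ) (S : Finset ι)
    (hS : ∀ i, i ∈ S ↔ |(q i).b - (q s).b| ≤ 84/100) (w0 : ℝ)
    (hw0 : wst X q (Icc 0 X ×ˢ Icc ((q s).b - 2) ((q s).b + 2)) + δ ≤ w0)
    (hsm : 600000 * (w0 + ∑ i ∈ S, lw X q δ i) ≤ 1/1000) :
    ∃ L', L' ⊆ S ∧ (q s).t ≤ 600000 * (w0 + ∑ j ∈ L', lw X q δ j) := by
  classical
  obtain ⟨s1, s2, s3, s4⟩ := center_bd h s
  have hpos : ∀ i, 0 < lw X q δ i := by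
    intro i; have := wst_nonneg X q (Bx (q i).a (q i).b 2); unfold lw; linarith
  have hw00 := wst_nonneg X q (Icc 0 X ×ˢ Icc ((q s).b - 2) ((q s).b + 2))
  have hsum0 : 0 ≤ ∑ i ∈ S, lw X q δ i := Finset.sum_nonneg fun i _ => (hpos i).le
  obtain ⟨j, j1, j2, j3, j4⟩ := stepW h (q s).b w0 (by linarith) (by linarith) (by linarith) (by linarith) (by linarith) (by linarith)
  obtain ⟨N, hN⟩ := exists_nat_ge (((q s).a) / (9/10))
  refine walk_ind h s δ w0 hδ S hS hsm N j ∅ (Finset.empty_subset _) (by simp) (by simpa using j1) ?_ (by linarith) ?_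
  · linarith
  · rw [div_le_iff₀ (by norm_num)] at hN
    linarith

end Pool.H10.SV
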